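import Mathlib

/-!
# Z.-W. Sun's congruences for weighted sums of squares of `R_k` and `W_k`

Both questions of the problem are answered in the affirmative.

The proof has four parts.
* Closed forms: with `D_n = ∑ C(n+k,2k) C(2k,k)` there are quadratic forms `E`, `F` with polynomial
  coefficients such that `8 (2n+1)^2 ∑_{k<n} (2k+1) R_k^2 = n E(n, R_n, D_n, D_{n-1})` and
  `8 ((2n-1)(2n+1)(2n+3))^2 ∑_{k<n} (2k+1) W_k^2 = n F(n, W_n, D_n, D_{n-1})`.
* `D_n = ∑_j C(n,j)^2 2^j`, so that `(n, R_n, W_n, D_n, D_{n-1})` modulo `128` is produced by a finite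
  state machine, which turns out to have period `512`.
* Running this machine shows `E ≡ 8 n (2n+1)^2 (mod 128)` and
  `F ≡ 8 n ((2n-1)(2n+1)(2n+3))^2 (mod 64)`.
* A separate argument at the prime `3` for the sum of the `W_k^2`.
-/

namespace Pool.Agent.Results.MP_c292ad_nt.SumsOfSquares

open Finset

/-! ### Delannoy numbers -/

/-- `D_n(x) = ∑_{k ≤ n} C(n,k) C(n+k,k) x^k`. -/
def D {R : Type*} [CommRing R] (n : ℕ) (x : R) : R :=
  ∑ k ∈ range (n + 1), (n.choose k : R) * ((n + k).choose k : R) * x ^ k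

/-- `b i k = C(k,i) C(k+i,i)`. -/
def b (i k : ℕ) : ℤ := (k.choose i : ℤ) * ((k + i).choose i : ℤ)

lemma b_zero (k : ℕ) : b 0 k = 1 := by simp [b]

lemma b_eq_zero {i k : ℕ} (h : k < i) : b i k = 0 := by
  simp [b, Nat.choose_eq_zero_of_lt h]

/-- `(k - i) C(k,i) = (i+1) C(k,i+1)` over `ℚ`, for all `i k`. -/
lemma choose_succ_q (k i : ℕ) :
    ((i : ℚ) + 1) * (k.choose (i + 1) : ℚ) = ((k : ℚ) - i) * (k.choose i : ℚ) := by
  rcases lt_or_ge k i with h | h
  · rw [Nat.choose_eq_zero_of_lt h, Nat.choose_eq_zero_of_lt (by omega)]; simp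
  · have h1 := Nat.choose_succ_right_eq k i
    have h2 : ((k.choose (i + 1) * (i + 1) : ℕ) : ℚ) = ((k.choose i * (k - i) : ℕ) : ℚ) := by
      rw [h1]
    push_cast [Nat.cast_sub h] at h2
    linarith

/-- `(k+1-i) C(k+1,i) = (k+1) C(k,i)`. -/
lemma choose_top_q (k i : ℕ) :
    ((k : ℚ) + 1 - i) * ((k + 1).choose i : ℚ) = ((k : ℚ) + 1) * (k.choose i : ℚ) := by
  rcases lt_or_ge k i with h | h
  · rw [Nat.choose_eq_zero_of_lt h]
    rcases eq_or_lt_of_le (Nat.succ_le_of_lt h) with h' | h'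
    · have : (i : ℚ) = k + 1 := by rw [← h']; push_cast; ring
      rw [this]; ring
    · rw [Nat.choose_eq_zero_of_lt (by omega : k + 1 < i)]; simp
  · have h1 := Nat.choose_mul_succ_eq k i
    have h2 : ((k.choose i * (k + 1) : ℕ) : ℚ) = (((k + 1).choose i * (k + 1 - i) : ℕ) : ℚ) := by
      rw [h1]
    push_cast [Nat.cast_sub (by omega : i ≤ k + 1)] at h2
    linarith

/-- `(i+1) C(k+i+1,i+1) = (k+i+1) C(k+i,i)`. -/
lemma choose_diag_q (k i : ℕ) :
    ((i : ℚ) + 1) * ((k + (i + 1)).choose (i + 1) : ℚ) =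
      ((k : ℚ) + i + 1) * ((k + i).choose i : ℚ) := by
  have h1 := Nat.add_one_mul_choose_eq (k + i) i
  have h2 : (((k + i + 1) * (k + i).choose i : ℕ) : ℚ) =
      (((k + i + 1).choose (i + 1) * (i + 1) : ℕ) : ℚ) := by rw [h1]
  push_cast at h2
  have h3 : k + (i + 1) = k + i + 1 := by ring
  rw [h3]
  linarith

lemma b_succ_q (i k : ℕ) :
    ((i : ℚ) + 1) ^ 2 * (b (i + 1) k : ℚ) =
      ((k : ℚ) * (k + 1) - (i : ℚ) * (i + 1)) * (b i k : ℚ) := by
  have h1 := choose_succ_q k i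
  have h2 := choose_diag_q k i
  simp only [b]
  push_cast
  linear_combination (((i : ℚ) + 1) * ((k + (i + 1)).choose (i + 1) : ℚ)) * h1 +
    (((k : ℚ) - i) * (k.choose i : ℚ)) * h2

lemma D_eq {R : Type*} [CommRing R] (k M : ℕ) (h : k < M) (x : R) :
    D k x = ∑ i ∈ range M, ((b i k : ℤ) : R) * x ^ i := by
  have h1 : D k x = ∑ i ∈ range (k + 1), ((b i k : ℤ) : R) * x ^ i := by
    refine sum_congr rfl fun i _ => ?_
    simp only [b]
    push_cast
    ring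
  rw [h1]
  refine sum_subset (range_subset_range.2 (by omega)) fun i _ hi => ?_
  rw [b_eq_zero (by simpa using hi)]
  simp

lemma b_top_q (n k : ℕ) :
    ((n : ℚ) + 1 - k) * (b k (n + 1) : ℚ) = ((n : ℚ) + 1 + k) * (b k n : ℚ) := by
  have e1 := choose_top_q n k
  have e2 := choose_top_q (n + k) k
  simp only [b]
  push_cast
  push_cast at e2
  rw [show n + 1 + k = n + k + 1 by ring]
  have e3 : ((n : ℚ) + 1) ≠ 0 := by positivity
  have e4 : ((n : ℚ) + 1) * ((n + k + 1).choose k : ℚ) =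
      ((n : ℚ) + k + 1) * ((n + k).choose k : ℚ) := by linear_combination e2
  apply mul_left_cancel₀ e3
  linear_combination (((n : ℚ) + 1) * ((n + k + 1).choose k : ℚ)) * e1 +
    (((n : ℚ) + 1) * (n.choose k : ℚ)) * e4

lemma D_rec (n : ℕ) (x : ℚ) :
    ((n : ℚ) + 2) * D (n + 2) x + (n + 1) * D n x = (2 * n + 3) * ((1 + 2 * x) * D (n + 1) x) := by
  have key : ∀ i : ℕ, ((n : ℚ) + 2) * (b (i + 1) (n + 2) : ℚ) + (n + 1) * (b (i + 1) n : ℚ) =
      (2 * n + 3) * ((b (i + 1) (n + 1) : ℚ) + 2 * (b i (n + 1) : ℚ)) := by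
    intro i
    have e1 := b_top_q n i
    have e2 := b_top_q (n + 1) i
    have e5 := b_succ_q i n
    have e6 := b_succ_q i (n + 1)
    have e7 := b_succ_q i (n + 2)
    have hi : ((i : ℚ) + 1) ^ 2 ≠ 0 := by positivity
    push_cast at *
    apply mul_left_cancel₀ hi
    rw [show n + 1 + 1 = n + 2 by ring] at e2
    linear_combination ((n : ℚ) + 2) * (e7 + ((n : ℚ) + 3 + i) * e2) +
      ((n : ℚ) + 1) * (e5 - ((n : ℚ) - i) * e1) - (2 * (n : ℚ) + 3) * e6
  rw [add_mul 1 (2 * x), one_mul, D_eq (n + 2) (n + 3 + 1) (by omega),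
    D_eq n (n + 3 + 1) (by omega)]
  have h2 : 2 * x * D (n + 1) x = ∑ i ∈ range (n + 3), 2 * ((b i (n + 1) : ℤ) : ℚ) * x ^ (i + 1) := by
    rw [D_eq (n + 1) (n + 3) (by omega), mul_sum]
    refine sum_congr rfl fun i _ => by ring
  rw [h2, D_eq (n + 1) (n + 3 + 1) (by omega)]
  simp only [sum_range_succ' _ (n + 3), b_zero]
  simp only [mul_add, mul_sum]
  have h3 : ∀ i ∈ range (n + 3), ((n : ℚ) + 2) * ((b (i + 1) (n + 2) : ℚ) * x ^ (i + 1)) =
      (2 * n + 3) * ((b (i + 1) (n + 1) : ℚ) * x ^ (i + 1)) +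
      (2 * n + 3) * (2 * (b i (n + 1) : ℚ) * x ^ (i + 1)) -
      ((n : ℚ) + 1) * ((b (i + 1) n : ℚ) * x ^ (i + 1)) := by
    intro i _
    linear_combination (x ^ (i + 1)) * key i
  rw [sum_congr rfl h3, sum_sub_distrib, sum_add_distrib]
  push_cast
  ring

/-! ### The transform `f ↦ ∑_k C(n+k,2k) f k` -/

/-- `T f n = ∑_{k ≤ n} C(n+k,2k) f(k)`. -/
def T (f : ℕ → ℤ) (n : ℕ) : ℤ := ∑ k ∈ range (n + 1), ((n + k).choose (2 * k) : ℤ) * f k

/-- `a k = C(2k,k)/(2k-1)`. -/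
def a : ℕ → ℤ
  | 0 => -1
  | k + 1 => 2 * (catalan k : ℤ)

/-- `w k = 3 C(2k,k)/(2k-3)`. -/
def w : ℕ → ℤ
  | 0 => -1
  | k + 1 => a (k + 1) + 8 * a k

/-- `g k = C(2k,k)`. -/
def g (k : ℕ) : ℤ := ((2 * k).choose k : ℤ)

lemma g_succ (k : ℕ) : ((k : ℤ) + 1) * g (k + 1) = 2 * (2 * k + 1) * g k := by
  have h := Nat.succ_mul_centralBinom_succ k
  simp only [Nat.centralBinom] at h
  simp only [g]
  have h2 : (((k + 1) * (2 * (k + 1)).choose (k + 1) : ℕ) : ℤ) =
      ((2 * (2 * k + 1) * (2 * k).choose k : ℕ) : ℤ) := by rw [h]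
  push_cast at h2
  exact h2

lemma catalan_g (k : ℕ) : ((k : ℤ) + 1) * (catalan k : ℤ) = g k := by
  have h := succ_mul_catalan_eq_centralBinom k
  simp only [Nat.centralBinom] at h
  simp only [g]
  exact_mod_cast h

lemma a_spec (k : ℕ) : (2 * (k : ℤ) - 1) * a k = g k := by
  cases k with
  | zero => simp [a, g]
  | succ k =>
    have h1 := g_succ k
    have h2 := catalan_g k
    have h3 : ((k : ℤ) + 1) ≠ 0 := by positivity
    apply mul_left_cancel₀ h3
    rw [h1, ← h2]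
    simp only [a]
    push_cast
    ring

lemma w_spec (k : ℕ) : (2 * (k : ℤ) - 3) * w k = 3 * g k := by
  cases k with
  | zero => simp [w, g]
  | succ k =>
    have h1 := a_spec k
    have h2 := a_spec (k + 1)
    have h3 := catalan_g k
    have h4 : a (k + 1) = 2 * (catalan k : ℤ) := rfl
    simp only [w]
    push_cast at *
    rw [h4] at h2 ⊢
    linear_combination 8 * h1 + 3 * h2 - 8 * h3

lemma choose_T (n k : ℕ) :
    ((n : ℤ) + 1 - k) * ((n + 1 + k).choose (2 * k) : ℤ) =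
      ((n : ℤ) + 1 + k) * ((n + k).choose (2 * k) : ℤ) := by
  rcases lt_or_ge (n + 1) k with h | h
  · rw [Nat.choose_eq_zero_of_lt (by omega), Nat.choose_eq_zero_of_lt (by omega)]; simp
  · have h1 := Nat.choose_mul_succ_eq (n + k) (2 * k)
    have h2 : (((n + k).choose (2 * k) * (n + k + 1) : ℕ) : ℤ) =
        (((n + k + 1).choose (2 * k) * (n + k + 1 - 2 * k) : ℕ) : ℤ) := by rw [h1]
    push_cast [Nat.cast_sub (by omega : 2 * k ≤ n + k + 1)] at h2
    rw [show n + 1 + k = n + k + 1 by ring]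
    linarith

lemma T_ext (f : ℕ → ℤ) (n N : ℕ) (h : n < N) :
    T f n = ∑ k ∈ range N, ((n + k).choose (2 * k) : ℤ) * f k := by
  refine sum_subset (range_subset_range.2 (by omega)) fun k _ hk => ?_
  have hk' : n + 1 ≤ k := by simpa using hk
  rw [Nat.choose_eq_zero_of_lt (by omega)]
  simp

lemma T_rec (s t : ℤ) (f h : ℕ → ℤ) (H : ∀ k : ℕ, (2 * (k : ℤ) - s) * f k = t * h k) (n : ℕ) :
    (2 * (n : ℤ) + 2 - s) * T f (n + 1) =
      (2 * (n : ℤ) + 2 + s) * T f n + t * (T h (n + 1) + T h n) := by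
  rw [T_ext f (n + 1) (n + 2) (by omega), T_ext f n (n + 2) (by omega),
    T_ext h (n + 1) (n + 2) (by omega), T_ext h n (n + 2) (by omega), ← sum_add_distrib,
    mul_sum, mul_sum, mul_sum, ← sum_add_distrib]
  refine sum_congr rfl fun k _ => ?_
  have h1 := H k
  have h2 := choose_T n k
  linear_combination (((n + 1 + k).choose (2 * k) : ℤ) + ((n + k).choose (2 * k) : ℤ)) * h1 +
    2 * f k * h2

/-- The integers `R_n`. -/
def Rz (n : ℕ) : ℤ := T a n

/-- The integers `W_n`. -/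
def Wz (n : ℕ) : ℤ := T w n

/-- The Delannoy numbers. -/
def Dz (n : ℕ) : ℤ := T g n

lemma R_rec (n : ℕ) : (2 * (n : ℤ) + 1) * Rz (n + 1) =
    (2 * (n : ℤ) + 3) * Rz n + Dz (n + 1) + Dz n := by
  have h := T_rec 1 1 a g (fun k => by rw [a_spec, one_mul]) n
  simp only [Rz, Dz]
  linear_combination h

lemma W_rec (n : ℕ) : (2 * (n : ℤ) - 1) * Wz (n + 1) =
    (2 * (n : ℤ) + 5) * Wz n + 3 * (Dz (n + 1) + Dz n) := by
  have h := T_rec 3 3 w g (fun k => w_spec k) n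
  simp only [Wz, Dz]
  linear_combination h

lemma term_D (n k : ℕ) :
    (n + k).choose (2 * k) * (2 * k).choose k = n.choose k * (n + k).choose k := by
  rcases lt_or_ge n k with h | h
  · rw [Nat.choose_eq_zero_of_lt h, Nat.choose_eq_zero_of_lt (by omega)]; simp
  · rw [Nat.choose_mul (by omega : k ≤ 2 * k)]
    rw [show n + k - k = n by omega, show 2 * k - k = k by omega, mul_comm]

lemma Dz_eq (n : ℕ) : Dz n = D n (1 : ℤ) := by
  simp only [Dz, T, D, g, one_pow, mul_one]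
  refine sum_congr rfl fun k _ => ?_
  exact_mod_cast term_D n k

lemma D_cast (n : ℕ) : ((D n (1 : ℤ) : ℤ) : ℚ) = D n (1 : ℚ) := by
  simp [D]

lemma Dz_rec (n : ℕ) : ((n : ℤ) + 2) * Dz (n + 2) + (n + 1) * Dz n =
    3 * (2 * n + 3) * Dz (n + 1) := by
  have h := D_rec n 1
  rw [← D_cast, ← D_cast, ← D_cast, ← Dz_eq, ← Dz_eq, ← Dz_eq] at h
  have h2 : (((((n : ℤ) + 2) * Dz (n + 2) + (n + 1) * Dz n : ℤ)) : ℚ) =
      ((3 * (2 * n + 3) * Dz (n + 1) : ℤ) : ℚ) := by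
    push_cast
    linear_combination h
  exact_mod_cast h2

/-- `D_n = ∑_j C(n,j)^2 2^j`. -/
lemma Dz_two (n : ℕ) : Dz n = ∑ j ∈ range (n + 1), ((n.choose j : ℤ) ^ 2 * 2 ^ j) := by
  have h1 : ∀ k, (n + k).choose k = ∑ j ∈ range (n + 1), n.choose j * k.choose j := by
    intro k
    rw [Nat.add_choose_eq, Finset.Nat.sum_antidiagonal_eq_sum_range_succ_mk]
    simp only
    have h2 : ∀ M, k < M → n < M → ∑ j ∈ range (k + 1), n.choose j * k.choose (k - j) =
        ∑ j ∈ range M, n.choose j * k.choose j := by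
      intro M hM _
      rw [← sum_subset (range_subset_range.2 (by omega : k + 1 ≤ M))]
      · refine sum_congr rfl fun j hj => ?_
        rw [Nat.choose_symm (by simpa using Nat.lt_succ_iff.1 (mem_range.1 hj))]
      · intro j _ hj
        rw [Nat.choose_eq_zero_of_lt (by simpa using hj : k < j)]
        simp
    rw [h2 (n + k + 1) (by omega) (by omega)]
    symm
    refine sum_subset (range_subset_range.2 (by omega)) fun j _ hj => ?_
    rw [Nat.choose_eq_zero_of_lt (by simpa using hj : n < j)]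
    simp
  have h3 : ∀ j ∈ range (n + 1), ∑ k ∈ range (n + 1), n.choose k * k.choose j =
      n.choose j * 2 ^ (n - j) := by
    intro j hj
    have hj' : j ≤ n := by simpa using Nat.lt_succ_iff.1 (mem_range.1 hj)
    rw [← Nat.sum_range_choose (n - j), mul_sum]
    rw [← sum_subset (s₁ := (range (n - j + 1)).image (fun i => i + j))]
    · rw [sum_image (by intro x _ y _ h; simpa using h)]
      refine sum_congr rfl fun i hi => ?_
      have hi' : i ≤ n - j := by simpa using Nat.lt_succ_iff.1 (mem_range.1 hi)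
      rw [Nat.choose_mul (by omega : j ≤ i + j)]
      rw [show i + j - j = i by omega]
    · intro x hx
      simp only [mem_image, mem_range] at hx ⊢
      omega
    · intro x hx hx2
      simp only [mem_image, mem_range, not_exists, not_and] at hx hx2
      have : x < j := by
        by_contra hc
        exact hx2 (x - j) (by omega) (by omega)
      rw [Nat.choose_eq_zero_of_lt this]
      simp
  have h4 : ∑ k ∈ range (n + 1), (n + k).choose (2 * k) * (2 * k).choose k =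
      ∑ j ∈ range (n + 1), n.choose j ^ 2 * 2 ^ j := by
    calc ∑ k ∈ range (n + 1), (n + k).choose (2 * k) * (2 * k).choose k
        = ∑ k ∈ range (n + 1), ∑ j ∈ range (n + 1), n.choose j * (n.choose k * k.choose j) := by
          refine sum_congr rfl fun k _ => ?_
          rw [term_D, h1, mul_sum]
          refine sum_congr rfl fun j _ => by ring
      _ = ∑ j ∈ range (n + 1), n.choose j * (n.choose j * 2 ^ (n - j)) := by
          rw [sum_comm]
          refine sum_congr rfl fun j hj => ?_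
          rw [← mul_sum, h3 j hj]
      _ = ∑ j ∈ range (n + 1), n.choose j ^ 2 * 2 ^ j := by
          rw [← sum_range_reflect]
          refine sum_congr rfl fun j hj => ?_
          have hj' : j ≤ n := by simpa using Nat.lt_succ_iff.1 (mem_range.1 hj)
          rw [show n + 1 - 1 - j = n - j by omega, show n - (n - j) = j by omega,
            Nat.choose_symm hj']
          ring
  simp only [Dz, T, g]
  exact_mod_cast h4

/-! ### Closed forms -/

/-- The quadratic form for `R`. -/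
def EE {R : Type*} [CommRing R] (n r d e : R) : R :=
  8 * (2 * n ^ 3 - n) * r ^ 2 + (4 - 8 * n - 24 * n ^ 2) * r * d + (4 + 8 * n + 8 * n ^ 2) * r * e +
    (4 + 7 * n) * d ^ 2 + (4 + 6 * n) * d * e - n * e ^ 2

/-- The quadratic form for `W`. -/
def FF {R : Type*} [CommRing R] (n r d e : R) : R :=
  8 * (16 * n ^ 7 - 80 * n ^ 5 + 118 * n ^ 3 - 45 * n) * r ^ 2 +
  3 * (-36 - 264 * n - 120 * n ^ 2 + 384 * n ^ 3 + 384 * n ^ 4 - 192 * n ^ 5 - 192 * n ^ 6) * r * d +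
  3 * (-36 - 24 * n + 40 * n ^ 2 + 192 * n ^ 3 + 256 * n ^ 4 + 192 * n ^ 5 + 64 * n ^ 6) * r * e +
  9 * ((-12 - 55 * n - 64 * n ^ 2 - 40 * n ^ 3 + 48 * n ^ 4 + 40 * n ^ 5) * d ^ 2 +
    (-12 - 54 * n - 48 * n ^ 2 + 240 * n ^ 3 + 384 * n ^ 4 + 144 * n ^ 5) * d * e +
    (n + 16 * n ^ 2 - 8 * n ^ 3 - 48 * n ^ 4 - 24 * n ^ 5) * e ^ 2)

/-- `SR n = ∑_{k<n} (2k+1) R_k^2`. -/
def SR (n : ℕ) : ℤ := ∑ k ∈ range n, (2 * (k : ℤ) + 1) * Rz k ^ 2

/-- `SW n = ∑_{k<n} (2k+1) W_k^2`. -/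
def SW (n : ℕ) : ℤ := ∑ k ∈ range n, (2 * (k : ℤ) + 1) * Wz k ^ 2

lemma closed_R (n : ℕ) : 8 * (2 * (n : ℤ) + 3) ^ 2 * SR (n + 1) =
    ((n : ℤ) + 1) * EE ((n : ℤ) + 1) (Rz (n + 1)) (Dz (n + 1)) (Dz n) := by
  induction n with
  | zero => decide +kernel
  | succ n ih =>
    have hS : SR (n + 1 + 1) = SR (n + 1) + (2 * ((n : ℤ) + 1) + 1) * Rz (n + 1) ^ 2 := by
      simp only [SR]
      rw [sum_range_succ _ (n + 1)]
      push_cast
      ring
    have h1 := R_rec (n + 1)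
    have h2 := Dz_rec n
    rw [show n + 1 + 1 = n + 2 by ring] at *
    rw [hS]
    generalize Rz (n + 2) = r2 at *
    generalize Rz (n + 1) = r at *
    generalize Dz (n + 2) = d2 at *
    generalize Dz (n + 1) = d at *
    generalize Dz n = e at *
    generalize SR (n + 1) = S at *
    push_cast at *
    have ihq : 8 * (2 * (n : ℚ) + 3) ^ 2 * S = ((n : ℚ) + 1) * EE ((n : ℚ) + 1) r d e := by
      have := congrArg (Int.cast : ℤ → ℚ) ih
      simp only [EE] at this ⊢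
      push_cast at this
      exact this
    have h1q : (2 * ((n : ℚ) + 1) + 1) * r2 = (2 * ((n : ℚ) + 1) + 3) * r + d2 + d := by
      exact_mod_cast h1
    have h2q : ((n : ℚ) + 2) * d2 + (n + 1) * e = 3 * (2 * n + 3) * d := by
      exact_mod_cast h2
    have hd2 : (d2 : ℚ) = (3 * (2 * n + 3) * d - (n + 1) * e) / ((n : ℚ) + 2) := by
      have : (n : ℚ) + 2 ≠ 0 := by positivity
      field_simp
      linear_combination h2q
    have hr2 : (r2 : ℚ) = ((2 * ((n : ℚ) + 1) + 3) * r + d2 + d) / (2 * ((n : ℚ) + 1) + 1) := by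
      have : 2 * ((n : ℚ) + 1) + 1 ≠ 0 := by positivity
      field_simp
      linear_combination h1q
    have hSq : (S : ℚ) = ((n : ℚ) + 1) * EE ((n : ℚ) + 1) r d e / (8 * (2 * (n : ℚ) + 3) ^ 2) := by
      have : 8 * (2 * (n : ℚ) + 3) ^ 2 ≠ 0 := by positivity
      field_simp
      linear_combination ihq
    have goalq : 8 * (2 * ((n : ℚ) + 1) + 3) ^ 2 * (S + (2 * ((n : ℚ) + 1) + 1) * r ^ 2) =
        (((n : ℚ) + 1) + 1) * EE (((n : ℚ) + 1) + 1) r2 d2 d := by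
      have e1 : (n : ℚ) + 2 ≠ 0 := by positivity
      have e2 : 2 * ((n : ℚ) + 1) + 1 ≠ 0 := by positivity
      have e3 : (2 * (n : ℚ) + 3) ≠ 0 := by positivity
      rw [hSq, hr2, hd2]
      simp only [EE]
      field_simp
      ring
    simp only [EE] at goalq ⊢
    exact_mod_cast goalq

lemma closed_W (n : ℕ) :
    8 * ((2 * (n : ℤ) + 1) * (2 * (n : ℤ) + 3) * (2 * (n : ℤ) + 5)) ^ 2 * SW (n + 1) =
    ((n : ℤ) + 1) * FF ((n : ℤ) + 1) (Wz (n + 1)) (Dz (n + 1)) (Dz n) := by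
  induction n with
  | zero => decide +kernel
  | succ n ih =>
    have hS : SW (n + 1 + 1) = SW (n + 1) + (2 * ((n : ℤ) + 1) + 1) * Wz (n + 1) ^ 2 := by
      simp only [SW]
      rw [sum_range_succ _ (n + 1)]
      push_cast
      ring
    have h1 := W_rec (n + 1)
    have h2 := Dz_rec n
    rw [show n + 1 + 1 = n + 2 by ring] at *
    rw [hS]
    generalize Wz (n + 2) = r2 at *
    generalize Wz (n + 1) = r at *
    generalize Dz (n + 2) = d2 at *
    generalize Dz (n + 1) = d at *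
    generalize Dz n = e at *
    generalize SW (n + 1) = S at *
    push_cast at *
    have ihq : 8 * ((2 * (n : ℚ) + 1) * (2 * (n : ℚ) + 3) * (2 * (n : ℚ) + 5)) ^ 2 * S =
        ((n : ℚ) + 1) * FF ((n : ℚ) + 1) r d e := by
      have := congrArg (Int.cast : ℤ → ℚ) ih
      simp only [FF] at this ⊢
      push_cast at this
      exact this
    have h1q : (2 * ((n : ℚ) + 1) - 1) * r2 = (2 * ((n : ℚ) + 1) + 5) * r + 3 * (d2 + d) := by
      exact_mod_cast h1
    have h2q : ((n : ℚ) + 2) * d2 + (n + 1) * e = 3 * (2 * n + 3) * d := by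
      exact_mod_cast h2
    have e0 : 2 * (n : ℚ) + 1 ≠ 0 := by positivity
    have e1 : (n : ℚ) + 2 ≠ 0 := by positivity
    have e2 : 2 * (n : ℚ) + 3 ≠ 0 := by positivity
    have e3 : 2 * (n : ℚ) + 5 ≠ 0 := by positivity
    have hd2 : (d2 : ℚ) = (3 * (2 * n + 3) * d - (n + 1) * e) / ((n : ℚ) + 2) := by
      field_simp
      linear_combination h2q
    have hr2 : (r2 : ℚ) = ((2 * (n : ℚ) + 7) * r + 3 * (d2 + d)) / (2 * (n : ℚ) + 1) := by
      field_simp
      linear_combination h1q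
    have hSq : (S : ℚ) = ((n : ℚ) + 1) * FF ((n : ℚ) + 1) r d e /
        (8 * ((2 * (n : ℚ) + 1) * (2 * (n : ℚ) + 3) * (2 * (n : ℚ) + 5)) ^ 2) := by
      field_simp
      linear_combination ihq
    have goalq : 8 * ((2 * ((n : ℚ) + 1) + 1) * (2 * ((n : ℚ) + 1) + 3) *
        (2 * ((n : ℚ) + 1) + 5)) ^ 2 * (S + (2 * ((n : ℚ) + 1) + 1) * r ^ 2) =
        (((n : ℚ) + 1) + 1) * FF (((n : ℚ) + 1) + 1) r2 d2 d := by
      rw [hSq, hr2, hd2]
      simp only [FF]
      field_simp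
      ring
    simp only [FF] at goalq ⊢
    exact_mod_cast goalq

/-! ### The state machine modulo `128` -/

/-- Truncation of `∑_j C(n,j)^2 2^j`. -/
def dd (c1 c2 c3 c4 c5 c6 : ℕ) : ℕ :=
  1 + 2 * c1 ^ 2 + 4 * c2 ^ 2 + 8 * c3 ^ 2 + 16 * c4 ^ 2 + 32 * c5 ^ 2 + 64 * c6 ^ 2

/-- States of the machine. -/
structure St where
  n : ℕ
  c1 : ℕ
  c2 : ℕ
  c3 : ℕ
  c4 : ℕ
  c5 : ℕ
  c6 : ℕ
  dp : ℕ
  r : ℕ
  w : ℕ
  deriving DecidableEq

/-- The current value of `D_n`. -/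
def St.d (s : St) : ℕ := dd s.c1 s.c2 s.c3 s.c4 s.c5 s.c6

/-- One step of the machine. -/
def nx (s : St) : St :=
  let d' := dd (s.c1 + 1) (s.c2 + s.c1) (s.c3 + s.c2) (s.c4 + s.c3) (s.c5 + s.c4) (s.c6 + s.c5)
  { n := (s.n + 1) % 128
    c1 := (s.c1 + 1) % 128
    c2 := (s.c2 + s.c1) % 128
    c3 := (s.c3 + s.c2) % 128
    c4 := (s.c4 + s.c3) % 128
    c5 := (s.c5 + s.c4) % 128
    c6 := (s.c6 + s.c5) % 128
    dp := s.d % 128
    r := (Nat.pow (2 * s.n + 1) 31 * ((2 * s.n + 3) * s.r + d' + s.d)) % 128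
    w := (Nat.pow (2 * s.n + 127) 31 * ((2 * s.n + 5) * s.w + 3 * (d' + s.d))) % 128 }

/-- The state at index `1`. -/
def s1 : St := ⟨1, 1, 0, 0, 0, 0, 0, 1, 1, 121⟩

/-- `E - 8 n (2n+1)^2`. -/
def polE (n r d e : ℕ) : ℕ :=
  8 * (2 * (n * n * n) + 127 * n) * (r * r) + (4 + 127 * (8 * n) + 127 * (24 * (n * n))) * r * d +
    (4 + 8 * n + 8 * (n * n)) * r * e +
    (4 + 7 * n) * (d * d) + (4 + 6 * n) * d * e + 127 * (n * (e * e)) +
    127 * (8 * n * ((2 * n + 1) * (2 * n + 1)))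

/-- `F - 8 n ((2n-1)(2n+1)(2n+3))^2`. -/
def polF (n r d e : ℕ) : ℕ :=
  let n2 := n * n
  let n3 := n2 * n
  let n4 := n3 * n
  let n5 := n4 * n
  let n6 := n5 * n
  let n7 := n6 * n
  let L := (2 * n + 127) * (2 * n + 1) * (2 * n + 3)
  8 * (16 * n7 + 127 * (80 * n5) + 118 * n3 + 127 * (45 * n)) * (r * r) +
  3 * (127 * 36 + 127 * (264 * n) + 127 * (120 * n2) + 384 * n3 + 384 * n4 + 127 * (192 * n5) +
    127 * (192 * n6)) * r * d +
  3 * (127 * 36 + 127 * (24 * n) + 40 * n2 + 192 * n3 + 256 * n4 + 192 * n5 + 64 * n6) * r * e +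
  9 * ((127 * 12 + 127 * (55 * n) + 127 * (64 * n2) + 127 * (40 * n3) + 48 * n4 + 40 * n5) *
      (d * d) +
    (127 * 12 + 127 * (54 * n) + 127 * (48 * n2) + 240 * n3 + 384 * n4 + 144 * n5) * d * e +
    (n + 16 * n2 + 127 * (8 * n3) + 127 * (48 * n4) + 127 * (24 * n5)) * (e * e)) +
  127 * (8 * n * (L * L))

/-- The check. -/
def chk (s : St) : Bool :=
  Nat.beq (polE s.n s.r s.d s.dp % 128) 0 && Nat.beq ((2 * polF s.n s.w s.d s.dp) % 128) 0

/-- Check `k` consecutive states. -/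
def allchk : ℕ → St → Bool
  | 0, _ => true
  | k + 1, s => chk s && allchk k (nx s)

lemma allchk_spec (k : ℕ) (s : St) (h : allchk k s = true) : ∀ i < k, chk (nx^[i] s) = true := by
  induction k generalizing s with
  | zero => intro i hi; omega
  | succ k ih =>
    simp only [allchk, Bool.and_eq_true] at h
    intro i hi
    cases i with
    | zero => exact h.1
    | succ i =>
      rw [Function.iterate_succ_apply]
      exact ih (nx s) h.2 i (by omega)

/-- Run the machine. -/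
def run : ℕ → St → St
  | 0, s => s
  | k + 1, s => run k (nx s)

lemma run_eq (k : ℕ) (s : St) : run k s = nx^[k] s := by
  induction k generalizing s with
  | zero => rfl
  | succ k ih => rw [run, ih, Function.iterate_succ_apply]

lemma run_512 : run 512 s1 = s1 := by decide +kernel

lemma allchk_512 : allchk 512 s1 = true := by decide +kernel

lemma chk_all (n : ℕ) : chk (nx^[n] s1) = true := by
  have h1 : Function.IsPeriodicPt nx 512 s1 := by
    have h := run_512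
    rw [run_eq] at h
    exact h
  rw [← h1.iterate_mod_apply]
  exact allchk_spec 512 s1 allchk_512 _ (Nat.mod_lt _ (by norm_num))

/-! ### The machine computes the true values modulo `128` -/

lemma pow32 (x : ZMod 128) : (2 * x + 1) ^ 31 * (2 * x + 1) = 1 := by
  revert x
  decide +kernel

lemma Dz_mod (n : ℕ) : ((Dz n : ℤ) : ZMod 128) =
    1 + 2 * (n.choose 1 : ZMod 128) ^ 2 + 4 * (n.choose 2 : ZMod 128) ^ 2 +
      8 * (n.choose 3 : ZMod 128) ^ 2 + 16 * (n.choose 4 : ZMod 128) ^ 2 +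
      32 * (n.choose 5 : ZMod 128) ^ 2 + 64 * (n.choose 6 : ZMod 128) ^ 2 := by
  have h1 : Dz n = ∑ j ∈ range (7 + (n + 1)), ((n.choose j : ℤ) ^ 2 * 2 ^ j) := by
    rw [Dz_two]
    refine sum_subset (range_subset_range.2 (by omega)) fun j _ hj => ?_
    have hj' : n + 1 ≤ j := by simpa using hj
    rw [Nat.choose_eq_zero_of_lt (by omega)]
    simp
  have h128 : (128 : ZMod 128) = 0 := by decide
  rw [h1, sum_range_add, Int.cast_add]
  have h2 : ((∑ j ∈ range (n + 1), ((n.choose (7 + j) : ℤ) ^ 2 * 2 ^ (7 + j)) : ℤ) : ZMod 128) = 0 := by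
    push_cast
    refine sum_eq_zero fun j _ => ?_
    rw [pow_add]
    have : (2 : ZMod 128) ^ 7 = 0 := by decide
    rw [this]
    ring
  rw [h2, add_zero]
  simp only [sum_range_succ, sum_range_zero]
  push_cast
  rw [Nat.choose_zero_right]
  push_cast
  ring

/-- The invariant. -/
structure Inv (s : St) (N : ℕ) : Prop where
  hn : (s.n : ZMod 128) = (N : ZMod 128) + 1
  h1 : (s.c1 : ZMod 128) = ((N + 1).choose 1 : ZMod 128)
  h2 : (s.c2 : ZMod 128) = ((N + 1).choose 2 : ZMod 128)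
  h3 : (s.c3 : ZMod 128) = ((N + 1).choose 3 : ZMod 128)
  h4 : (s.c4 : ZMod 128) = ((N + 1).choose 4 : ZMod 128)
  h5 : (s.c5 : ZMod 128) = ((N + 1).choose 5 : ZMod 128)
  h6 : (s.c6 : ZMod 128) = ((N + 1).choose 6 : ZMod 128)
  hdp : (s.dp : ZMod 128) = ((Dz N : ℤ) : ZMod 128)
  hr : (s.r : ZMod 128) = ((Rz (N + 1) : ℤ) : ZMod 128)
  hw : (s.w : ZMod 128) = ((Wz (N + 1) : ℤ) : ZMod 128)

lemma dd_cast (a b c d e f : ℕ) : ((dd a b c d e f : ℕ) : ZMod 128) =
    1 + 2 * (a : ZMod 128) ^ 2 + 4 * (b : ZMod 128) ^ 2 + 8 * (c : ZMod 128) ^ 2 +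
      16 * (d : ZMod 128) ^ 2 + 32 * (e : ZMod 128) ^ 2 + 64 * (f : ZMod 128) ^ 2 := by
  simp [dd]

lemma Inv.hd {s : St} {N : ℕ} (h : Inv s N) : (s.d : ZMod 128) = ((Dz (N + 1) : ℤ) : ZMod 128) := by
  rw [Dz_mod, St.d, dd_cast, h.h1, h.h2, h.h3, h.h4, h.h5, h.h6]

lemma Inv.hd' {s : St} {N : ℕ} (h : Inv s N) :
    ((dd (s.c1 + 1) (s.c2 + s.c1) (s.c3 + s.c2) (s.c4 + s.c3) (s.c5 + s.c4) (s.c6 + s.c5) : ℕ) :
      ZMod 128) = ((Dz (N + 2) : ℤ) : ZMod 128) := by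
  rw [Dz_mod, dd_cast]
  push_cast
  rw [h.h1, h.h2, h.h3, h.h4, h.h5, h.h6]
  rw [show N + 2 = (N + 1) + 1 by ring, Nat.choose_succ_succ (N + 1) 0,
    Nat.choose_succ_succ (N + 1) 1, Nat.choose_succ_succ (N + 1) 2,
    Nat.choose_succ_succ (N + 1) 3, Nat.choose_succ_succ (N + 1) 4,
    Nat.choose_succ_succ (N + 1) 5]
  push_cast
  simp only [Nat.choose_zero_right, Nat.cast_one]
  ring

lemma Inv.succ {s : St} {N : ℕ} (h : Inv s N) : Inv (nx s) (N + 1) := by
  have hR := congrArg (Int.cast : ℤ → ZMod 128) (R_rec (N + 1))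
  have hW := congrArg (Int.cast : ℤ → ZMod 128) (W_rec (N + 1))
  push_cast at hR hW
  have hd := h.hd
  have hd' := h.hd'
  have h127 : (127 : ZMod 128) = -1 := by decide
  refine ⟨?_, ?_, ?_, ?_, ?_, ?_, ?_, ?_, ?_, ?_⟩
  · simp only [nx, ZMod.natCast_mod]
    push_cast
    rw [h.hn]
  · simp only [nx, ZMod.natCast_mod]
    rw [Nat.choose_succ_succ (N + 1) 0]
    push_cast
    rw [h.h1]
    simp only [Nat.choose_zero_right, Nat.cast_one]
    ring
  · simp only [nx, ZMod.natCast_mod]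
    rw [Nat.choose_succ_succ (N + 1) 1]
    push_cast
    rw [h.h1, h.h2]
    ring
  · simp only [nx, ZMod.natCast_mod]
    rw [Nat.choose_succ_succ (N + 1) 2]
    push_cast
    rw [h.h3, h.h2]
    ring
  · simp only [nx, ZMod.natCast_mod]
    rw [Nat.choose_succ_succ (N + 1) 3]
    push_cast
    rw [h.h3, h.h4]
    ring
  · simp only [nx, ZMod.natCast_mod]
    rw [Nat.choose_succ_succ (N + 1) 4]
    push_cast
    rw [h.h5, h.h4]
    ring
  · simp only [nx, ZMod.natCast_mod]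
    rw [Nat.choose_succ_succ (N + 1) 5]
    push_cast
    rw [h.h5, h.h6]
    ring
  · simp only [nx, ZMod.natCast_mod]
    exact hd
  · simp only [nx, ZMod.natCast_mod, Nat.pow_eq]
    push_cast
    rw [hd', hd, h.hn, h.hr]
    have h3 := pow32 ((N : ZMod 128) + 1)
    have h4 : (2 * ((N : ZMod 128) + 1) + 3) * ((Rz (N + 1) : ℤ) : ZMod 128) +
        ((Dz (N + 2) : ℤ) : ZMod 128) + ((Dz (N + 1) : ℤ) : ZMod 128) =
        (2 * ((N : ZMod 128) + 1) + 1) * ((Rz (N + 2) : ℤ) : ZMod 128) := hR.symm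
    rw [h4, ← mul_assoc, h3, one_mul]
  · simp only [nx, ZMod.natCast_mod, Nat.pow_eq]
    push_cast
    rw [hd', hd, h.hn, h.hw, h127]
    have h3 := pow32 (N : ZMod 128)
    have h4 : (2 * ((N : ZMod 128) + 1) + 5) * ((Wz (N + 1) : ℤ) : ZMod 128) +
        3 * (((Dz (N + 2) : ℤ) : ZMod 128) + ((Dz (N + 1) : ℤ) : ZMod 128)) =
        (2 * (N : ZMod 128) + 1) * ((Wz (N + 2) : ℤ) : ZMod 128) := by
      linear_combination -hW
    rw [h4, show (2 * ((N : ZMod 128) + 1) + -1) = 2 * (N : ZMod 128) + 1 by ring, ← mul_assoc, h3,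
      one_mul]

lemma inv_all (N : ℕ) : Inv (nx^[N] s1) N := by
  induction N with
  | zero =>
    refine ⟨?_, ?_, ?_, ?_, ?_, ?_, ?_, ?_, ?_, ?_⟩ <;> decide +kernel
  | succ N ih =>
    rw [Function.iterate_succ_apply']
    exact ih.succ

lemma E_mod (N : ℕ) : (128 : ℤ) ∣ EE ((N : ℤ) + 1) (Rz (N + 1)) (Dz (N + 1)) (Dz N) -
    8 * ((N : ℤ) + 1) * (2 * (N : ℤ) + 3) ^ 2 := by
  have h := chk_all N
  have hI := inv_all N
  generalize nx^[N] s1 = s at *
  simp only [chk, Bool.and_eq_true, Nat.beq_eq] at h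
  have h1 := (ZMod.natCast_eq_zero_iff _ _).2 (Nat.dvd_of_mod_eq_zero h.1)
  have h127 : (127 : ZMod 128) = -1 := by decide
  rw [show (128 : ℤ) = ((128 : ℕ) : ℤ) by norm_num, ← ZMod.intCast_zmod_eq_zero_iff_dvd]
  simp only [polE] at h1
  push_cast at h1
  rw [h127, hI.hn, hI.hr, hI.hd, hI.hdp] at h1
  simp only [EE]
  push_cast
  linear_combination h1

lemma F_mod (N : ℕ) : (64 : ℤ) ∣ FF ((N : ℤ) + 1) (Wz (N + 1)) (Dz (N + 1)) (Dz N) -
    8 * ((N : ℤ) + 1) * ((2 * (N : ℤ) + 1) * (2 * (N : ℤ) + 3) * (2 * (N : ℤ) + 5)) ^ 2 := by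
  have h := chk_all N
  have hI := inv_all N
  generalize nx^[N] s1 = s at *
  simp only [chk, Bool.and_eq_true, Nat.beq_eq] at h
  have h1 := (ZMod.natCast_eq_zero_iff _ _).2 (Nat.dvd_of_mod_eq_zero h.2)
  have h127 : (127 : ZMod 128) = -1 := by decide
  have h2 : (128 : ℤ) ∣ 2 * (FF ((N : ℤ) + 1) (Wz (N + 1)) (Dz (N + 1)) (Dz N) -
    8 * ((N : ℤ) + 1) * ((2 * (N : ℤ) + 1) * (2 * (N : ℤ) + 3) * (2 * (N : ℤ) + 5)) ^ 2) := by
    rw [show (128 : ℤ) = ((128 : ℕ) : ℤ) by norm_num, ← ZMod.intCast_zmod_eq_zero_iff_dvd]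
    simp only [polF] at h1
    push_cast at h1
    have h4572 : (4572 : ZMod 128) = -36 := by decide
    have h1524 : (1524 : ZMod 128) = -12 := by decide
    rw [h127, hI.hn, hI.hw, hI.hd, hI.hdp, h4572, h1524] at h1
    simp only [FF]
    push_cast
    linear_combination h1
  omega

/-! ### The sum of the `W_k^2` modulo `3` -/

lemma three_dvd (m : ℕ) : (3 : ℤ) ∣ SW (3 * m) := by
  induction m with
  | zero => simp [SW]
  | succ m ih =>
    have hS : SW (3 * (m + 1)) = SW (3 * m) + (2 * ((3 * m : ℕ) : ℤ) + 1) * Wz (3 * m) ^ 2 +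
        (2 * ((3 * m + 1 : ℕ) : ℤ) + 1) * Wz (3 * m + 1) ^ 2 +
        (2 * ((3 * m + 2 : ℕ) : ℤ) + 1) * Wz (3 * m + 2) ^ 2 := by
      rw [show 3 * (m + 1) = 3 * m + 3 by ring]
      simp only [SW, sum_range_succ]
    have h1 := W_rec (3 * m)
    have h2 := W_rec (3 * m + 1)
    rw [show 3 * m + 1 + 1 = 3 * m + 2 by ring] at h2
    rw [hS]
    obtain ⟨t, ht⟩ := ih
    rw [ht]
    generalize Wz (3 * m) = x at *
    generalize Wz (3 * m + 1) = y at *
    generalize Wz (3 * m + 2) = z at *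
    generalize Dz (3 * m) = d0 at *
    generalize Dz (3 * m + 1) = d1 at *
    generalize Dz (3 * m + 2) = d2 at *
    push_cast at *
    have hy : y = x + 3 * (2 * m * (y - x) - 2 * x - d1 - d0) := by linear_combination -h1
    have hz : z = y + 3 * (2 * y + 2 * m * (y - z) + d2 + d1) := by linear_combination h2
    generalize 2 * (m : ℤ) * (y - x) - 2 * x - d1 - d0 = u at hy
    generalize 2 * y + 2 * (m : ℤ) * (y - z) + d2 + d1 = v at hz
    subst hz
    subst hy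
    refine ⟨t + (2 * m * x ^ 2 + 2 * m * (x + 3 * u) ^ 2 + (x + 3 * u) ^ 2 +
      2 * m * ((x + 3 * u) + 3 * v) ^ 2 + 2 * x ^ 2 + (10 * x * u + 15 * u ^ 2) +
      (10 * (x + 3 * u) * v + 15 * v ^ 2)), ?_⟩
    ring

/-! ### The final divisibilities -/

lemma cop_two (x : ℤ) : IsCoprime (2 : ℤ) (2 * x + 1) := ⟨-x, 1, by ring⟩

lemma dvd_R (N : ℕ) : (16 * ((N : ℤ) + 1)) ∣ SR (N + 1) - ((N : ℤ) + 1) ^ 2 := by
  obtain ⟨t, ht⟩ := E_mod N
  have h1 := closed_R N
  have h2 : 8 * ((2 * (N : ℤ) + 3) ^ 2 * (SR (N + 1) - ((N : ℤ) + 1) ^ 2)) =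
      8 * (16 * ((N : ℤ) + 1) * t) := by
    linear_combination h1 + ((N : ℤ) + 1) * ht
  have h3 : (2 * (N : ℤ) + 3) ^ 2 * (SR (N + 1) - ((N : ℤ) + 1) ^ 2) = 16 * ((N : ℤ) + 1) * t :=
    mul_left_cancel₀ (by norm_num) h2
  have hc : IsCoprime (16 * ((N : ℤ) + 1)) ((2 * (N : ℤ) + 3) ^ 2) := by
    apply IsCoprime.pow_right
    apply IsCoprime.mul_left
    · rw [show (16 : ℤ) = 2 ^ 4 by norm_num, show 2 * (N : ℤ) + 3 = 2 * ((N : ℤ) + 1) + 1 by ring]
      exact (cop_two _).pow_left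
    · exact ⟨-2, 1, by ring⟩
  exact hc.dvd_of_dvd_mul_left (Dvd.intro _ h3.symm)

lemma dvd_W (N : ℕ) : (8 * ((N : ℤ) + 1)) ∣ SW (N + 1) - ((N : ℤ) + 1) ^ 2 := by
  obtain ⟨t, ht⟩ := F_mod N
  have h1 := closed_W N
  set L : ℤ := (2 * (N : ℤ) + 1) * (2 * (N : ℤ) + 3) * (2 * (N : ℤ) + 5) with hL
  have h2 : 8 * (L ^ 2 * (SW (N + 1) - ((N : ℤ) + 1) ^ 2)) =
      8 * (8 * ((N : ℤ) + 1) * t) := by
    linear_combination h1 + ((N : ℤ) + 1) * ht
  have h3 : L ^ 2 * (SW (N + 1) - ((N : ℤ) + 1) ^ 2) = 8 * ((N : ℤ) + 1) * t :=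
    mul_left_cancel₀ (by norm_num) h2
  have hodd : IsCoprime (2 : ℤ) L := by
    rw [hL]
    refine IsCoprime.mul_right (IsCoprime.mul_right (cop_two _) ?_) ?_
    · rw [show 2 * (N : ℤ) + 3 = 2 * ((N : ℤ) + 1) + 1 by ring]; exact cop_two _
    · rw [show 2 * (N : ℤ) + 5 = 2 * ((N : ℤ) + 2) + 1 by ring]; exact cop_two _
  by_cases h3n : 3 ∣ N + 1
  · obtain ⟨m, hm⟩ := h3n
    have hmz : (N : ℤ) + 1 = 3 * m := by exact_mod_cast hm
    by_cases h9 : 3 ∣ m
    · -- `9 ∣ n`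
      obtain ⟨q, hq⟩ := h9
      have hqz : (N : ℤ) + 1 = 9 * q := by rw [hmz, hq]; push_cast; ring
      have hF : (9 : ℤ) ∣ FF ((N : ℤ) + 1) (Wz (N + 1)) (Dz (N + 1)) (Dz N) := by
        rw [hqz]
        simp only [FF]
        generalize Wz (N + 1) = r
        generalize Dz (N + 1) = d
        generalize Dz N = e
        generalize (q : ℤ) = x
        refine ⟨8 * (16 * 9 ^ 6 * x ^ 7 - 80 * 9 ^ 4 * x ^ 5 + 118 * 9 ^ 2 * x ^ 3 - 45 * x) * r ^ 2 +
          3 * (-4 - 264 * x - 120 * 9 * x ^ 2 + 384 * 9 ^ 2 * x ^ 3 + 384 * 9 ^ 3 * x ^ 4 -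
            192 * 9 ^ 4 * x ^ 5 - 192 * 9 ^ 5 * x ^ 6) * r * d +
          3 * (-4 - 24 * x + 40 * 9 * x ^ 2 + 192 * 9 ^ 2 * x ^ 3 + 256 * 9 ^ 3 * x ^ 4 +
            192 * 9 ^ 4 * x ^ 5 + 64 * 9 ^ 5 * x ^ 6) * r * e +
          ((-12 - 55 * (9 * x) - 64 * (9 * x) ^ 2 - 40 * (9 * x) ^ 3 + 48 * (9 * x) ^ 4 +
              40 * (9 * x) ^ 5) * d ^ 2 +
            (-12 - 54 * (9 * x) - 48 * (9 * x) ^ 2 + 240 * (9 * x) ^ 3 + 384 * (9 * x) ^ 4 +
              144 * (9 * x) ^ 5) * d * e +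
            ((9 * x) + 16 * (9 * x) ^ 2 - 8 * (9 * x) ^ 3 - 48 * (9 * x) ^ 4 -
              24 * (9 * x) ^ 5) * e ^ 2), ?_⟩
        ring
      obtain ⟨F', hF'⟩ := hF
      set L' : ℤ := (18 * (q : ℤ) - 1) * (18 * (q : ℤ) + 1) * (6 * (q : ℤ) + 1) with hL'
      have hN : (N : ℤ) = 9 * q - 1 := by linear_combination hqz
      have hLL : L = 3 * L' := by rw [hL, hL', hN]; ring
      rw [hF', hLL] at h1 ht
      rw [hqz] at h1 ht ⊢
      have hodd' : IsCoprime (2 : ℤ) L' := by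
        rw [hLL] at hodd
        exact hodd.of_mul_right_right
      -- `64 ∣ F' - 8 n L'^2`
      have h64 : (64 : ℤ) ∣ F' - 8 * (9 * q) * L' ^ 2 := by
        have h5 : (64 : ℤ) ∣ 9 * (F' - 8 * (9 * q) * L' ^ 2) := ⟨t, by linear_combination ht⟩
        exact (by norm_num : IsCoprime (64 : ℤ) 9).dvd_of_dvd_mul_left h5
      obtain ⟨t', ht'⟩ := h64
      have h6 : 72 * (L' ^ 2 * (SW (N + 1) - (9 * q) ^ 2)) = 72 * (8 * (9 * q) * t') := by
        linear_combination h1 + 81 * (q : ℤ) * ht'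
      have h7 : L' ^ 2 * (SW (N + 1) - (9 * (q : ℤ)) ^ 2) = 8 * (9 * q) * t' :=
        mul_left_cancel₀ (by norm_num) h6
      have hc : IsCoprime (8 * (9 * (q : ℤ))) (L' ^ 2) := by
        apply IsCoprime.pow_right
        apply IsCoprime.mul_left
        · rw [show (8 : ℤ) = 2 ^ 3 by norm_num]
          exact hodd'.pow_left
        · rw [hL']
          refine IsCoprime.mul_right (IsCoprime.mul_right ⟨2, -1, by ring⟩ ⟨-2, 1, by ring⟩) ?_
          apply IsCoprime.mul_left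
          · rw [show (9 : ℤ) = 3 ^ 2 by norm_num]
            exact IsCoprime.pow_left ⟨-2 * (q : ℤ), 1, by ring⟩
          · exact ⟨-6, 1, by ring⟩
      exact hc.dvd_of_dvd_mul_left (Dvd.intro _ h7.symm)
    · -- `n = 3 m` with `3 ∤ m`
      have h3m : IsCoprime (m : ℤ) 3 := by
        have : Nat.Coprime m 3 := ((Nat.Prime.coprime_iff_not_dvd Nat.prime_three).2 h9).symm
        exact_mod_cast Nat.isCoprime_iff_coprime.2 this
      rw [hmz] at h3 ⊢
      have hN : (N : ℤ) = 3 * m - 1 := by linear_combination hmz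
      have hc : IsCoprime (8 * (m : ℤ)) (L ^ 2) := by
        apply IsCoprime.pow_right
        apply IsCoprime.mul_left
        · rw [show (8 : ℤ) = 2 ^ 3 by norm_num]
          exact hodd.pow_left
        · rw [hL, hN]
          refine IsCoprime.mul_right (IsCoprime.mul_right ⟨6, -1, by ring⟩ ⟨-6, 1, by ring⟩) ?_
          rw [show 2 * (3 * (m : ℤ) - 1) + 5 = 3 + m * 6 by ring]
          exact h3m.add_mul_left_right 6
      have h8m : (8 * (m : ℤ)) ∣ SW (N + 1) - (3 * m) ^ 2 :=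
        hc.dvd_of_dvd_mul_left ⟨3 * t, by linear_combination h3⟩
      have h3' : (3 : ℤ) ∣ SW (N + 1) - (3 * m) ^ 2 := by
        rw [hm]
        exact dvd_sub (three_dvd m) ⟨3 * m ^ 2, by ring⟩
      have hc3 : IsCoprime (3 : ℤ) (8 * (m : ℤ)) :=
        IsCoprime.mul_right (by norm_num) h3m.symm
      rw [show 8 * (3 * (m : ℤ)) = 3 * (8 * m) by ring]
      exact hc3.mul_dvd h3' h8m
  · have h3c : IsCoprime ((N : ℤ) + 1) 3 := by
      have : Nat.Coprime (N + 1) 3 := ((Nat.Prime.coprime_iff_not_dvd Nat.prime_three).2 h3n).symm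
      exact_mod_cast Nat.isCoprime_iff_coprime.2 this
    have hc : IsCoprime (8 * ((N : ℤ) + 1)) (L ^ 2) := by
      apply IsCoprime.pow_right
      apply IsCoprime.mul_left
      · rw [show (8 : ℤ) = 2 ^ 3 by norm_num]
        exact hodd.pow_left
      · rw [hL]
        refine IsCoprime.mul_right (IsCoprime.mul_right ⟨2, -1, by ring⟩ ⟨-2, 1, by ring⟩) ?_
        rw [show 2 * (N : ℤ) + 5 = 3 + ((N : ℤ) + 1) * 2 by ring]
        exact h3c.add_mul_left_right 2
    exact hc.dvd_of_dvd_mul_left (Dvd.intro _ h3.symm)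

/-- The rational numbers `R_n` of the problem. -/
def R (n : ℕ) : ℚ :=
  ∑ k ∈ range (n + 1), ((n + k).choose (2 * k) : ℚ) * ((2 * k).choose k : ℚ) * (1 / (2 * (k : ℚ) - 1))

/-- The rational numbers `W_n` of the problem. -/
def W (n : ℕ) : ℚ :=
  ∑ k ∈ range (n + 1), ((n + k).choose (2 * k) : ℚ) * ((2 * k).choose k : ℚ) * (3 / (2 * (k : ℚ) - 3))

lemma odd_ne (k : ℕ) (s : ℤ) : (2 * (k : ℚ) - (2 * s + 1)) ≠ 0 := by
  intro h
  have h2 : 2 * (k : ℤ) - (2 * s + 1) = 0 := by exact_mod_cast h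
  omega

lemma R_cast (n : ℕ) : R n = (Rz n : ℚ) := by
  simp only [R, Rz, T]
  push_cast
  refine sum_congr rfl fun k _ => ?_
  have h1 : (2 * (k : ℚ) - 1) * (a k : ℚ) = ((2 * k).choose k : ℚ) := by
    have := a_spec k
    simp only [g] at this
    exact_mod_cast this
  have h2 : (2 * (k : ℚ) - 1) ≠ 0 := by
    have := odd_ne k 0
    simpa using this
  rw [← h1]
  field_simp

lemma W_cast (n : ℕ) : W n = (Wz n : ℚ) := by
  simp only [W, Wz, T]
  push_cast
  refine sum_congr rfl fun k _ => ?_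
  have h1 : (2 * (k : ℚ) - 3) * (w k : ℚ) = 3 * ((2 * k).choose k : ℚ) := by
    have := w_spec k
    simp only [g] at this
    exact_mod_cast this
  have h2 : (2 * (k : ℚ) - 3) ≠ 0 := by
    have := odd_ne k 1
    norm_num at this
    exact this
  have h3 : ((2 * k).choose k : ℚ) * (3 / (2 * (k : ℚ) - 3)) = (w k : ℚ) := by
    rw [mul_div_assoc', div_eq_iff h2]
    linear_combination -h1
  rw [mul_assoc, h3]

/-- **Z.-W. Sun's congruences.** For every positive integer `n`,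
`∑_{k<n} (2k+1) R_k^2 ≡ n^2 (mod 16n)` and `∑_{k<n} (2k+1) W_k^2 ≡ n^2 (mod 8n)`. -/
theorem result :
    (∀ n : ℕ, 0 < n → ∃ m : ℤ,
      ∑ k ∈ range n, (2 * (k : ℚ) + 1) * R k ^ 2 = (n : ℚ) ^ 2 + (16 * n) * m) ∧
    (∀ n : ℕ, 0 < n → ∃ m : ℤ,
      ∑ k ∈ range n, (2 * (k : ℚ) + 1) * W k ^ 2 = (n : ℚ) ^ 2 + (8 * n) * m) := by
  constructor
  · intro n hn
    obtain ⟨N, rfl⟩ : ∃ N, n = N + 1 := ⟨n - 1, by omega⟩
    obtain ⟨m, hm⟩ := dvd_R N
    refine ⟨m, ?_⟩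
    have h1 : ∑ k ∈ range (N + 1), (2 * (k : ℚ) + 1) * R k ^ 2 = ((SR (N + 1) : ℤ) : ℚ) := by
      simp only [SR]
      push_cast
      refine sum_congr rfl fun k _ => by rw [R_cast]
    have h2 : SR (N + 1) = ((N : ℤ) + 1) ^ 2 + 16 * ((N : ℤ) + 1) * m := by linear_combination hm
    rw [h1, h2]
    push_cast
    ring
  · intro n hn
    obtain ⟨N, rfl⟩ : ∃ N, n = N + 1 := ⟨n - 1, by omega⟩
    obtain ⟨m, hm⟩ := dvd_W N
    refine ⟨m, ?_⟩
    have h1 : ∑ k ∈ range (N + 1), (2 * (k : ℚ) + 1) * W k ^ 2 = ((SW (N + 1) : ℤ) : ℚ) := by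
      simp only [SW]
      push_cast
      refine sum_congr rfl fun k _ => by rw [W_cast]
    have h2 : SW (N + 1) = ((N : ℤ) + 1) ^ 2 + 8 * ((N : ℤ) + 1) * m := by linear_combination hm
    rw [h1, h2]
    push_cast
    ring

end Pool.Agent.Results.MP_c292ad_nt.SumsOfSquares
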